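import Pool.Agent.L5helper98.ID.Defs

/-!
# Passage to the limit of the moments
-/

set_option autoImplicit false

open MeasureTheory ProbabilityTheory Filter Topology Set
open scoped ENNReal BoundedContinuousFunction

namespace Pool.Agent.L5helper92.ID

open Pool.Agent.L5helper98.ID

/-- The truncated power. -/
noncomputable def tf (j A : ℕ) : ℝ →ᵇ ℝ :=
  BoundedContinuousFunction.ofNormedAddCommGroup (fun t : ℝ => min |t| (A : ℝ) ^ j)
    ((continuous_abs.min continuous_const).pow j) ((A : ℝ) ^ j) (fun t => by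
      have h0 : 0 ≤ min |t| (A : ℝ) := le_min (abs_nonneg t) (Nat.cast_nonneg A)
      rw [Real.norm_eq_abs, abs_of_nonneg (pow_nonneg h0 j)]
      exact pow_le_pow_left₀ h0 (min_le_right _ _) j)

theorem tf_apply (j A : ℕ) (t : ℝ) : tf j A t = min |t| (A : ℝ) ^ j := rfl

theorem tf_nonneg (j A : ℕ) (t : ℝ) : 0 ≤ tf j A t := by
  rw [tf_apply]
  exact pow_nonneg (le_min (abs_nonneg t) (Nat.cast_nonneg A)) j

theorem tf_le (j A : ℕ) (t : ℝ) : tf j A t ≤ |t| ^ j := by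
  rw [tf_apply]
  exact pow_le_pow_left₀ (le_min (abs_nonneg t) (Nat.cast_nonneg A)) (min_le_left _ _) j

theorem lint {Ω : Type} [MeasurableSpace Ω] (P : Measure Ω) [IsProbabilityMeasure P] {S : Ω → ℝ}
    (hS : AEMeasurable S P) (j A : ℕ) :
    ENNReal.ofReal (∫ o, tf j A (S o) ∂P) = ∫⁻ o, ENNReal.ofReal (tf j A (S o)) ∂P := by
  refine ofReal_integral_eq_lintegral_ofReal ?_ (Eventually.of_forall fun o => tf_nonneg j A _)
  refine Integrable.of_bound
    ((tf j A).continuous.measurable.comp_aemeasurable hS).aestronglyMeasurable ‖tf j A‖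
    (Eventually.of_forall fun o => (tf j A).norm_coe_le_norm _)

theorem lint_le {Ω : Type} [MeasurableSpace Ω] (P : Measure Ω) {S : Ω → ℝ} (j A : ℕ) :
    ∫⁻ o, ENNReal.ofReal (tf j A (S o)) ∂P ≤ ∫⁻ o, ENNReal.ofReal |S o| ^ j ∂P := by
  refine lintegral_mono fun o => ?_
  rw [← ENNReal.ofReal_pow (abs_nonneg _)]
  exact ENNReal.ofReal_le_ofReal (tf_le j A _)

theorem mono_tf (j : ℕ) (τ : Measure ℝ) :
    Tendsto (fun A : ℕ => ∫⁻ t, ENNReal.ofReal (tf j A t) ∂τ) atTop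
      (𝓝 (∫⁻ t, ENNReal.ofReal |t| ^ j ∂τ)) := by
  refine lintegral_tendsto_of_tendsto_of_monotone (fun A => ?_) (Eventually.of_forall fun t => ?_)
    (Eventually.of_forall fun t => ?_)
  · exact (tf j A).continuous.measurable.ennreal_ofReal.aemeasurable
  · intro A B hAB
    refine ENNReal.ofReal_le_ofReal ?_
    rw [tf_apply, tf_apply]
    exact pow_le_pow_left₀ (le_min (abs_nonneg t) (Nat.cast_nonneg A))
      (min_le_min_left _ (by exact_mod_cast hAB)) j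
  · refine tendsto_const_nhds.congr' ?_
    filter_upwards [eventually_ge_atTop ⌈|t|⌉₊] with A hA
    have h1 : |t| ≤ A := (Nat.le_ceil _).trans (by exact_mod_cast hA)
    rw [tf_apply, min_eq_left h1, ENNReal.ofReal_pow (abs_nonneg _)]

theorem point (s : ℝ) (hs : 0 ≤ s) (A : ℕ) (hA : 1 ≤ A) (j : ℕ) (hj : j = 1 ∨ j = 3) :
    s ^ j ≤ min |s| (A : ℝ) ^ j + s ^ 4 * (1 / (A : ℝ)) := by
  have hA1 : (1 : ℝ) ≤ A := by exact_mod_cast hA
  have hA0 : (0 : ℝ) < A := by linarith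
  rw [abs_of_nonneg hs]
  rcases le_total s A with h | h
  · rw [min_eq_left h]
    have : 0 ≤ s ^ 4 * (1 / (A : ℝ)) := by positivity
    linarith
  · rw [min_eq_right h]
    have h1 : (0 : ℝ) ≤ (A : ℝ) ^ j := by positivity
    have h2 : s ^ j ≤ s ^ 3 := by
      rcases hj with rfl | rfl
      · exact pow_le_pow_right₀ (by linarith) (by norm_num)
      · exact le_rfl
    have h3 : s ^ 3 ≤ s ^ 4 * (1 / (A : ℝ)) := by
      rw [mul_one_div, le_div_iff₀ hA0]
      have : s ^ 4 = s ^ 3 * s := by ring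
      rw [this]
      exact mul_le_mul_of_nonneg_left h (by positivity)
    linarith

theorem TRA1_holds : St_TRA1 := by
  intro τ hτ Ω mΩ P S hP hS hS0 hlim b1 b2 b3 b4 hb1 hb2 hb3 hb4 e1 e2 e3 e4
  have hpos : ∀ᶠ ε in 𝓝[>] (0 : ℝ), 0 < ε := eventually_mem_nhdsWithin
  have hτ' : ∀ j A : ℕ, ENNReal.ofReal (∫ t, tf j A t ∂τ) = ∫⁻ t, ENNReal.ofReal (tf j A t) ∂τ :=
    fun j A => lint τ aemeasurable_id j A
  -- upper bounds
  have up : ∀ (j : ℕ) (b : ℝ), 0 ≤ b →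
      (∀ᶠ ε in 𝓝[>] (0 : ℝ), ∫⁻ o, ENNReal.ofReal (S ε o) ^ j ∂(P ε) ≤ ENNReal.ofReal b) →
      ∫⁻ t, ENNReal.ofReal |t| ^ j ∂τ ≤ ENNReal.ofReal b := by
    intro j b hb he
    refine le_of_tendsto' (mono_tf j τ) fun A => ?_
    rw [← hτ' j A]
    refine ENNReal.ofReal_le_ofReal ?_
    refine le_of_tendsto (hlim (tf j A)) ?_
    filter_upwards [he, hpos] with ε h1 h2
    have := hP ε h2
    have h3 := lint (P ε) (hS ε h2) j A
    have h4 : ENNReal.ofReal (∫ o, tf j A (S ε o) ∂(P ε)) ≤ ENNReal.ofReal b := by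
      rw [h3]
      refine (lint_le (P ε) j A).trans ?_
      refine le_trans (le_of_eq ?_) h1
      refine lintegral_congr fun o => ?_
      rw [abs_of_nonneg (hS0 ε h2 o)]
    exact (ENNReal.ofReal_le_ofReal_iff hb).1 h4
  -- lower bounds
  have lo : ∀ (j : ℕ) (b : ℝ), (j = 1 ∨ j = 3) → 0 ≤ b →
      (∀ᶠ ε in 𝓝[>] (0 : ℝ), ENNReal.ofReal b ≤ ∫⁻ o, ENNReal.ofReal (S ε o) ^ j ∂(P ε)) →
      ENNReal.ofReal b ≤ ∫⁻ t, ENNReal.ofReal |t| ^ j ∂τ := by
    intro j b hj hb he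
    have key : ∀ A : ℕ, 1 ≤ A → b ≤ ∫ t, tf j A t ∂τ + b4 * (1 / (A : ℝ)) := by
      intro A hA
      have hA0 : (0 : ℝ) ≤ 1 / (A : ℝ) := by positivity
      refine ge_of_tendsto ((hlim (tf j A)).add_const (b4 * (1 / (A : ℝ)))) ?_
      filter_upwards [he, e4, hpos] with ε h1 h4 h2
      have := hP ε h2
      have h3 := lint (P ε) (hS ε h2) j A
      have hn : 0 ≤ ∫ o, tf j A (S ε o) ∂(P ε) := integral_nonneg fun o => tf_nonneg j A _
      have hm : AEMeasurable (fun o => ENNReal.ofReal (tf j A (S ε o))) (P ε) :=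
        ((tf j A).continuous.measurable.comp_aemeasurable (hS ε h2)).ennreal_ofReal
      have h5 : ∫⁻ o, ENNReal.ofReal (S ε o) ^ j ∂(P ε) ≤
          ∫⁻ o, (ENNReal.ofReal (tf j A (S ε o)) +
            ENNReal.ofReal (S ε o) ^ 4 * ENNReal.ofReal (1 / (A : ℝ))) ∂(P ε) := by
        refine lintegral_mono fun o => ?_
        have h0 := hS0 ε h2 o
        show ENNReal.ofReal (S ε o) ^ j ≤ ENNReal.ofReal (tf j A (S ε o)) +
            ENNReal.ofReal (S ε o) ^ 4 * ENNReal.ofReal (1 / (A : ℝ))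
        rw [← ENNReal.ofReal_pow h0, ← ENNReal.ofReal_pow h0,
          ← ENNReal.ofReal_mul (pow_nonneg h0 4),
          ← ENNReal.ofReal_add (tf_nonneg j A _) (mul_nonneg (pow_nonneg h0 4) hA0)]
        exact ENNReal.ofReal_le_ofReal (point _ h0 A hA j hj)
      rw [lintegral_add_left' hm, lintegral_mul_const' _ _ ENNReal.ofReal_ne_top, ← h3] at h5
      have h6 : ENNReal.ofReal b ≤
          ENNReal.ofReal (∫ o, tf j A (S ε o) ∂(P ε) + b4 * (1 / (A : ℝ))) := by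
        rw [ENNReal.ofReal_add hn (mul_nonneg hb4 hA0), ENNReal.ofReal_mul hb4]
        refine (h1.trans h5).trans ?_
        gcongr
      exact (ENNReal.ofReal_le_ofReal_iff (add_nonneg hn (mul_nonneg hb4 hA0))).1 h6
    by_cases htop : ∫⁻ t, ENNReal.ofReal |t| ^ j ∂τ = ⊤
    · rw [htop]; exact le_top
    have h7 : ∀ A : ℕ, 1 ≤ A →
        b ≤ (∫⁻ t, ENNReal.ofReal |t| ^ j ∂τ).toReal + b4 * (1 / (A : ℝ)) := by
      intro A hA
      refine (key A hA).trans ?_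
      have h8 : ENNReal.ofReal (∫ t, tf j A t ∂τ) ≤ ∫⁻ t, ENNReal.ofReal |t| ^ j ∂τ := by
        rw [hτ' j A]
        exact lint_le (S := fun t => t) τ j A
      have h9 := (ENNReal.ofReal_le_iff_le_toReal htop).1 h8
      linarith
    have h10 : Tendsto (fun A : ℕ => (∫⁻ t, ENNReal.ofReal |t| ^ j ∂τ).toReal +
        b4 * (1 / (A : ℝ))) atTop (𝓝 ((∫⁻ t, ENNReal.ofReal |t| ^ j ∂τ).toReal + b4 * 0)) :=
      (tendsto_const_nhds.add (tendsto_one_div_atTop_nhds_zero_nat.const_mul b4))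
    have h11 : b ≤ (∫⁻ t, ENNReal.ofReal |t| ^ j ∂τ).toReal + b4 * 0 :=
      ge_of_tendsto h10 (by
        filter_upwards [eventually_ge_atTop 1] with A hA
        exact h7 A hA)
    rw [mul_zero, add_zero] at h11
    exact (ENNReal.ofReal_le_iff_le_toReal htop).2 h11
  refine ⟨?_, up 2 b2 hb2 e2, lo 3 b3 (Or.inr rfl) hb3 e3, up 4 b4 hb4 e4⟩
  have := lo 1 b1 (Or.inl rfl) hb1 (by simpa only [pow_one] using e1)
  simpa only [pow_one] using this

end Pool.Agent.L5helper92.ID
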